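import Pool.Agent.Q247.RK.Pat

set_option autoImplicit false

/-!
# Sets of differences contained in a random set: counting
-/

namespace Pool.Agent.Q247.RK

open Finset

/-- the projection `π_r(A) = {x + r y : (x, y) ∈ A}` -/
def proj (r : ℚ) (A : Finset (ℤ × ℤ)) : Finset ℚ :=
  A.image (fun p : ℤ × ℤ => (p.1 : ℚ) + r * (p.2 : ℚ))

/-- the projection `π_∞(A) = {y : (x, y) ∈ A}` -/
def projInf (A : Finset (ℤ × ℤ)) : Finset ℚ := A.image (fun p : ℤ × ℤ => (p.2 : ℚ))

/-- the largest size of a projection of `A` with slope `∞` or in `S` -/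
def big (S : Finset ℚ) (A : Finset (ℤ × ℤ)) : ℕ :=
  max (projInf A).card (S.sup fun r => (proj r A).card)

theorem choose_ratio {N m s : ℕ} (hs : s ≤ m) (hm : m ≤ N) :
    (N - s).choose (m - s) * N ^ s ≤ N.choose m * m ^ s := by
  have h1 : ∀ s, m.descFactorial s * N ^ s ≤ N.descFactorial s * m ^ s := by
    intro s
    induction s with
    | zero => simp
    | succ s ih =>
      rw [Nat.descFactorial_succ, Nat.descFactorial_succ, pow_succ, pow_succ]
      have h2 : (m - s) * N ≤ (N - s) * m := by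
        rcases le_or_gt s m with h | h
        · obtain ⟨a, rfl⟩ := Nat.exists_eq_add_of_le h
          obtain ⟨b, rfl⟩ := Nat.exists_eq_add_of_le hm
          rw [Nat.add_sub_cancel_left, show s + a + b - s = a + b by omega]
          nlinarith
        · rw [Nat.sub_eq_zero_of_le h.le, zero_mul]
          exact Nat.zero_le _
      calc (m - s) * m.descFactorial s * (N ^ s * N)
          = ((m - s) * N) * (m.descFactorial s * N ^ s) := by ring
        _ ≤ ((N - s) * m) * (N.descFactorial s * m ^ s) := Nat.mul_le_mul h2 ih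
        _ = _ := by ring
  have h3 : m.choose s * N ^ s ≤ N.choose s * m ^ s := by
    have h4 := h1 s
    rw [Nat.descFactorial_eq_factorial_mul_choose, Nat.descFactorial_eq_factorial_mul_choose,
      mul_assoc, mul_assoc] at h4
    exact Nat.le_of_mul_le_mul_left h4 (Nat.factorial_pos s)
  have h5 : 0 < N.choose s := Nat.choose_pos (hs.trans hm)
  apply Nat.le_of_mul_le_mul_left _ h5
  calc N.choose s * ((N - s).choose (m - s) * N ^ s)
      = (N.choose s * (N - s).choose (m - s)) * N ^ s := by ring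
    _ = N.choose m * (m.choose s * N ^ s) := by rw [← Nat.choose_mul hs]; ring
    _ ≤ N.choose m * (N.choose s * m ^ s) := Nat.mul_le_mul_left _ h3
    _ = _ := by ring

theorem card_super {B D' : Finset ℤ} (hD : D' ⊆ B) (m : ℕ) :
    ((B.powersetCard m).filter fun D => D' ⊆ D).card ≤ (B.card - D'.card).choose (m - D'.card) := by
  have h1 : (B \ D').card = B.card - D'.card := card_sdiff_of_subset hD
  rw [← h1, ← card_powersetCard]
  refine card_le_card_of_injOn (fun D => D \ D') ?_ ?_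
  · intro D hD2
    obtain ⟨h2, h3⟩ := mem_filter.1 hD2
    obtain ⟨h4, h5⟩ := mem_powersetCard.1 h2
    refine mem_powersetCard.2 ⟨sdiff_subset_sdiff h4 (Subset.refl _), ?_⟩
    rw [card_sdiff_of_subset h3, h5]
  · intro D1 h1' D2 h2' h
    have h3 := (mem_filter.1 h1').2
    have h4 := (mem_filter.1 h2').2
    rw [← sdiff_union_of_subset h3, ← sdiff_union_of_subset h4]
    simp only at h
    rw [h]

section
variable (S : Finset ℚ) (B : Finset ℤ) (K : ℕ)

/-- the differences `d ∈ B` of the points `(y_j + d, y_j)` whose projections are among the given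
numbers -/
noncomputable def Gset (y : Fin K → ℤ) (z : {r // r ∈ S} → Fin K → ℚ) : Finset ℤ := by
  classical
  exact B.filter fun d => ∃ j, ∀ r : {r // r ∈ S}, ∃ k, (1 + (r : ℚ)) * (y j : ℚ) + d = z r k

variable {S B K}

theorem mem_Gset {y : Fin K → ℤ} {z : {r // r ∈ S} → Fin K → ℚ} {d : ℤ} :
    d ∈ Gset S B K y z ↔ d ∈ B ∧ ∃ j, ∀ r : {r // r ∈ S}, ∃ k,
      (1 + (r : ℚ)) * (y j : ℚ) + d = z r k := by
  classical
  unfold Gset
  rw [mem_filter]

theorem Gset_card {c : ℝ} (hc : 0 ≤ c)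
    (hKT : ∀ A : Finset (ℤ × ℤ), ((proj (-1) A).card : ℝ) ≤ (big S A : ℝ) ^ c)
    (y : Fin K → ℤ) (z : {r // r ∈ S} → Fin K → ℚ) :
    ((Gset S B K y z).card : ℝ) ≤ (K : ℝ) ^ c := by
  classical
  by_cases hne : (Gset S B K y z).Nonempty
  swap
  · rw [not_nonempty_iff_eq_empty.1 hne, card_empty, Nat.cast_zero]
    positivity
  have hK : Nonempty (Fin K) := by
    obtain ⟨d, hd⟩ := hne
    obtain ⟨j, _⟩ := (mem_Gset.1 hd).2
    exact ⟨j⟩
  choose! j hj using fun d (hd : d ∈ Gset S B K y z) => (mem_Gset.1 hd).2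
  let P : Finset (ℤ × ℤ) := (Gset S B K y z).image fun d => (y (j d) + d, y (j d))
  have h1 : (proj (-1) P).card = (Gset S B K y z).card := by
    unfold proj
    rw [image_image]
    rw [card_image_of_injective]
    intro d d' h
    simp only [Function.comp] at h
    push_cast at h
    have : (d : ℚ) = d' := by linarith
    exact_mod_cast this
  have h2 : big S P ≤ K := by
    unfold big
    refine max_le ?_ (Finset.sup_le fun r hr => ?_)
    · have : projInf P ⊆ (univ : Finset (Fin K)).image fun j => (y j : ℚ) := by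
        intro w hw
        obtain ⟨p, hp, rfl⟩ := mem_image.1 hw
        obtain ⟨d, _, rfl⟩ := mem_image.1 hp
        exact mem_image_of_mem _ (mem_univ _)
      exact (card_le_card this).trans (card_image_le.trans (by rw [card_univ, Fintype.card_fin]))
    · have : proj r P ⊆ (univ : Finset (Fin K)).image fun k => z ⟨r, hr⟩ k := by
        intro w hw
        obtain ⟨p, hp, rfl⟩ := mem_image.1 hw
        obtain ⟨d, hd, rfl⟩ := mem_image.1 hp
        obtain ⟨k, hk⟩ := hj d hd ⟨r, hr⟩
        refine mem_image.2 ⟨k, mem_univ _, ?_⟩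
        rw [← hk]
        push_cast
        ring
      exact (card_le_card this).trans (card_image_le.trans (by rw [card_univ, Fintype.card_fin]))
  rw [← h1]
  exact (hKT P).trans (Real.rpow_le_rpow (by positivity) (by exact_mod_cast h2) hc)

/-- the forms -/
def frm (S : Finset ℚ) (B : Finset ℤ) (K : ℕ) :
    {d // d ∈ B} × {r // r ∈ S} × Fin K × Fin K → Option (Option {r // r ∈ S} × Fin K) → ℚ :=
  fun e o => match o with
    | none => (((e.1 : ℤ)) : ℚ)
    | some i => (if i = (none, e.2.2.1) then 1 + (e.2.1 : ℚ) else 0) +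
        (if i = (some e.2.1, e.2.2.2) then -1 else 0)

theorem fnl_frm (y : Fin K → ℤ) (z : {r // r ∈ S} → Fin K → ℚ)
    (e : {d // d ∈ B} × {r // r ∈ S} × Fin K × Fin K) :
    fnl (fun i : Option {r // r ∈ S} × Fin K => match i.1 with
      | none => (y i.2 : ℚ)
      | some r => z r i.2) (frm S B K e) = 0 ↔
      (1 + ((e.2.1 : ℚ))) * (y e.2.2.1 : ℚ) + ((e.1 : ℤ) : ℚ) = z e.2.1 e.2.2.2 := by
  rw [fnl_apply]
  simp only [frm, mul_add, sum_add_distrib, mul_ite, mul_zero, sum_ite_eq', mem_univ, if_true]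
  constructor
  · intro h
    linarith
  · intro h
    linarith

theorem family (S : Finset ℚ) (B : Finset ℤ) (K : ℕ) : ∃ 𝒢 : Finset (Finset ℤ),
    𝒢.card ≤ (B.card * S.card * K * K + 1) ^ ((S.card + 1) * K) ∧
    (∀ G ∈ 𝒢, ∃ y z, G = Gset S B K y z) ∧ ∀ y z, Gset S B K y z ∈ 𝒢 := by
  classical
  let E := {d // d ∈ B} × {r // r ∈ S} × Fin K × Fin K
  let ι := Option {r // r ∈ S} × Fin K
  let Γ : Finset E → Finset ℤ := fun Z => B.filter fun d => ∃ j, ∀ r : {r // r ∈ S}, ∃ k,
    ∃ hd : d ∈ B, ((⟨d, hd⟩, r, j, k) : E) ∈ Z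
  let 𝒢 : Finset (Finset ℤ) := (univ : Finset (Fin (Fintype.card ι) → Option E)).image
    fun f => Γ (clos (frm S B K) f)
  refine ⟨𝒢.filter fun G => ∃ y z, G = Gset S B K y z, ?_, fun G hG => (mem_filter.1 hG).2, ?_⟩
  · refine (card_filter_le _ _).trans (card_image_le.trans ?_)
    have hE : Fintype.card E = B.card * S.card * K * K := by
      simp only [E, Fintype.card_prod, Fintype.card_fin, Fintype.card_coe]
      ring
    have hι : Fintype.card ι = (S.card + 1) * K := by
      simp only [ι, Fintype.card_prod, Fintype.card_fin, Fintype.card_option, Fintype.card_coe]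
    rw [card_univ, Fintype.card_fun, Fintype.card_option, Fintype.card_fin, hE, hι]
  · intro y z
    refine mem_filter.2 ⟨?_, y, z, rfl⟩
    obtain ⟨f, hf⟩ := patterns (frm S B K) (fun i : Option {r // r ∈ S} × Fin K => match i.1 with
      | none => (y i.2 : ℚ)
      | some r => z r i.2)
    refine mem_image.2 ⟨f, mem_univ _, ?_⟩
    ext d
    rw [mem_Gset]
    simp only [Γ, mem_filter]
    constructor
    · rintro ⟨hd, j, h⟩
      refine ⟨hd, j, fun r => ?_⟩
      obtain ⟨k, _, hk⟩ := h r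
      rw [hf, fnl_frm] at hk
      exact ⟨k, hk⟩
    · rintro ⟨hd, j, h⟩
      refine ⟨hd, j, fun r => ?_⟩
      obtain ⟨k, hk⟩ := h r
      refine ⟨k, hd, ?_⟩
      rw [hf, fnl_frm]
      exact hk

end

theorem cover {α : Type*} {X : Finset α} (hX : X.Nonempty) {K : ℕ} (h : X.card ≤ K) :
    ∃ g : Fin K → α, ∀ x ∈ X, ∃ j, g j = x := by
  classical
  obtain ⟨x0, hx0⟩ := hX
  let eb := X.equivFin
  refine ⟨fun i => if h : (i : ℕ) < X.card then (eb.symm ⟨i, h⟩).1 else x0, fun x hx => ?_⟩
  have hlt : ((eb ⟨x, hx⟩ : Fin X.card) : ℕ) < X.card := (eb ⟨x, hx⟩).2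
  refine ⟨⟨(eb ⟨x, hx⟩ : ℕ), by omega⟩, ?_⟩
  simp only [hlt, dif_pos]
  have : (⟨((eb ⟨x, hx⟩ : Fin X.card) : ℕ), hlt⟩ : Fin X.card) = eb ⟨x, hx⟩ := rfl
  rw [this, Equiv.symm_apply_apply]

/-- the differences form a subset of one of the sets -/
theorem contain {S : Finset ℚ} {B D : Finset ℤ} (hDB : D ⊆ B) {A : Finset (ℤ × ℤ)}
    (hA : A.Nonempty) (hAD : ∀ p ∈ A, p.1 - p.2 ∈ D) {K : ℕ} (hK : big S A ≤ K) :
    ∃ y z, A.image (fun p => p.1 - p.2) ⊆ Gset S B K y z := by
  classical
  have hY : (A.image Prod.snd).card ≤ K := by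
    have h1 : (projInf A).card = (A.image Prod.snd).card := by
      have : projInf A = (A.image Prod.snd).image (fun n : ℤ => (n : ℚ)) := by
        unfold projInf
        rw [image_image]
        rfl
      rw [this, card_image_of_injective _ Int.cast_injective]
    rw [← h1]
    exact (le_max_left _ _).trans hK
  have hZ : ∀ r ∈ S, (proj r A).card ≤ K := fun r hr =>
    (Finset.le_sup (f := fun r => (proj r A).card) hr).trans ((le_max_right _ _).trans hK)
  obtain ⟨y, hy⟩ := cover (hA.image Prod.snd) hY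
  choose z hz using fun r : {r // r ∈ S} => cover (hA.image fun p : ℤ × ℤ =>
    (p.1 : ℚ) + (r : ℚ) * (p.2 : ℚ)) (hZ r.1 r.2)
  refine ⟨y, z, ?_⟩
  intro d hd
  obtain ⟨p, hp, rfl⟩ := mem_image.1 hd
  rw [mem_Gset]
  obtain ⟨j, hj⟩ := hy _ (mem_image_of_mem Prod.snd hp)
  refine ⟨hDB (hAD p hp), j, fun r => ?_⟩
  obtain ⟨k, hk⟩ := hz r _ (mem_image_of_mem _ hp)
  refine ⟨k, ?_⟩
  rw [hk, hj]
  push_cast
  ring

theorem card_diff (A : Finset (ℤ × ℤ)) :
    (proj (-1) A).card = (A.image fun p => p.1 - p.2).card := by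
  classical
  have : proj (-1) A = (A.image fun p => p.1 - p.2).image (fun n : ℤ => (n : ℚ)) := by
    unfold proj
    rw [image_image]
    congr 1
    funext p
    simp only [Function.comp]
    push_cast
    ring
  rw [this, card_image_of_injective _ Int.cast_injective]

/-- the exceptional sets -/
noncomputable def Bad (S : Finset ℚ) (B : Finset ℤ) (m C : ℕ) : Finset (Finset ℤ) := by
  classical
  exact (B.powersetCard m).filter fun D => ¬ ∀ A : Finset (ℤ × ℤ), (∀ p ∈ A, p.1 - p.2 ∈ D) →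
    (proj (-1) A).card ≤ C * big S A

/-- **Union bound.** -/
theorem bad_le {S : Finset ℚ} {c : ℝ} (hc : 0 ≤ c)
    (hKT : ∀ A : Finset (ℤ × ℤ), ((proj (-1) A).card : ℝ) ≤ (big S A : ℝ) ^ c)
    (B : Finset ℤ) (m C : ℕ) (hC : 1 ≤ C) (hm : m ≤ B.card) :
    ((Bad S B m C).card : ℝ) ≤ ∑ s ∈ Icc (C + 1) m,
      ((B.card * S.card * (s / C) * (s / C) + 1 : ℕ) : ℝ) ^ ((S.card + 1) * (s / C)) *
        ((((s / C : ℕ) : ℝ) ^ c) ^ s / s.factorial) *
          ((m : ℝ) / B.card) ^ s * (B.card.choose m) := by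
  classical
  choose 𝒢 h1 h2 h3 using family S B
  have hsub : Bad S B m C ⊆ (Icc (C + 1) m).biUnion fun s => (𝒢 (s / C)).biUnion fun G =>
      (G.powersetCard s).biUnion fun D' => (B.powersetCard m).filter fun D => D' ⊆ D := by
    intro D hD
    unfold Bad at hD
    obtain ⟨hD1, hD2⟩ := mem_filter.1 hD
    obtain ⟨hDB, hDm⟩ := mem_powersetCard.1 hD1
    push Not at hD2
    obtain ⟨A, hA, hlt⟩ := hD2
    have hne : A.Nonempty := by
      by_contra h
      rw [not_nonempty_iff_eq_empty] at h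
      rw [h] at hlt
      simp [proj] at hlt
    have hbig : 1 ≤ big S A := by
      refine le_trans ?_ (le_max_left _ _)
      exact card_pos.2 (hne.image _)
    rw [card_diff] at hlt
    have hsD : A.image (fun p => p.1 - p.2) ⊆ D := by
      intro d hd
      obtain ⟨p, hp, rfl⟩ := mem_image.1 hd
      exact hA p hp
    have hs1 : C < (A.image fun p => p.1 - p.2).card := by
      calc C = C * 1 := (mul_one C).symm
        _ ≤ C * big S A := Nat.mul_le_mul_left _ hbig
        _ < _ := hlt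
    have hs2 : (A.image fun p => p.1 - p.2).card ≤ m := by
      rw [← hDm]
      exact card_le_card hsD
    have hK : big S A ≤ (A.image fun p => p.1 - p.2).card / C := by
      rw [Nat.le_div_iff_mul_le (by omega), mul_comm]
      exact hlt.le
    obtain ⟨y, z, hyz⟩ := contain (S := S) hDB hne hA hK
    refine mem_biUnion.2 ⟨_, mem_Icc.2 ⟨hs1, hs2⟩, mem_biUnion.2 ⟨_, h3 _ y z,
      mem_biUnion.2 ⟨_, mem_powersetCard.2 ⟨hyz, rfl⟩, mem_filter.2 ⟨hD1, hsD⟩⟩⟩⟩
  refine (Nat.cast_le.2 ((card_le_card hsub).trans card_biUnion_le)).trans ?_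
  rw [Nat.cast_sum]
  refine sum_le_sum fun s hs => ?_
  obtain ⟨hs1, hs2⟩ := mem_Icc.1 hs
  have hN : (0 : ℝ) < B.card := by
    have : 0 < B.card := by omega
    exact_mod_cast this
  -- the number of supersets
  have hsup : ∀ G ∈ 𝒢 (s / C), ∀ D' ∈ G.powersetCard s,
      (((B.powersetCard m).filter fun D => D' ⊆ D).card : ℝ) ≤
        ((m : ℝ) / B.card) ^ s * (B.card.choose m) := by
    intro G hG D' hD'
    obtain ⟨y, z, rfl⟩ := h2 _ G hG
    obtain ⟨h4, h5⟩ := mem_powersetCard.1 hD'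
    have h6 : D' ⊆ B := h4.trans fun d hd => (mem_Gset.1 hd).1
    have h7 := card_super h6 m
    rw [h5] at h7
    have h8 := choose_ratio hs2 hm
    have h9 : (((B.card - s).choose (m - s) : ℕ) : ℝ) * (B.card : ℝ) ^ s ≤
        (B.card.choose m : ℝ) * (m : ℝ) ^ s := by exact_mod_cast h8
    calc (((B.powersetCard m).filter fun D => D' ⊆ D).card : ℝ)
        ≤ (((B.card - s).choose (m - s) : ℕ) : ℝ) := by exact_mod_cast h7
      _ ≤ (B.card.choose m : ℝ) * (m : ℝ) ^ s / (B.card : ℝ) ^ s := by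
          rw [le_div_iff₀ (by positivity)]
          exact h9
      _ = _ := by rw [div_pow]; ring
  have hG : ∀ G ∈ 𝒢 (s / C), (((G.powersetCard s).biUnion fun D' =>
      (B.powersetCard m).filter fun D => D' ⊆ D).card : ℝ) ≤
        ((((s / C : ℕ) : ℝ) ^ c) ^ s / s.factorial) *
          (((m : ℝ) / B.card) ^ s * (B.card.choose m)) := by
    intro G hG
    have h4 : ((G.powersetCard s).card : ℝ) ≤ (((s / C : ℕ) : ℝ) ^ c) ^ s / s.factorial := by
      rw [card_powersetCard]
      refine (Nat.choose_le_pow_div s G.card).trans ?_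
      apply div_le_div_of_nonneg_right _ (by positivity)
      apply pow_le_pow_left₀ (by positivity)
      obtain ⟨y, z, hyz⟩ := h2 _ G hG
      rw [hyz]
      exact Gset_card hc hKT y z
    calc _ ≤ ∑ D' ∈ G.powersetCard s,
          (((B.powersetCard m).filter fun D => D' ⊆ D).card : ℝ) := by exact_mod_cast card_biUnion_le
      _ ≤ ∑ _D' ∈ G.powersetCard s, ((m : ℝ) / B.card) ^ s * (B.card.choose m) :=
          sum_le_sum fun D' hD' => hsup G hG D' hD'
      _ = ((G.powersetCard s).card : ℝ) * (((m : ℝ) / B.card) ^ s * (B.card.choose m)) := by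
          rw [sum_const, nsmul_eq_mul]
      _ ≤ _ := mul_le_mul_of_nonneg_right h4 (by positivity)
  calc _ ≤ ∑ G ∈ 𝒢 (s / C), (((G.powersetCard s).biUnion fun D' =>
          (B.powersetCard m).filter fun D => D' ⊆ D).card : ℝ) := by exact_mod_cast card_biUnion_le
    _ ≤ ∑ _G ∈ 𝒢 (s / C), ((((s / C : ℕ) : ℝ) ^ c) ^ s / s.factorial) *
          (((m : ℝ) / B.card) ^ s * (B.card.choose m)) := sum_le_sum fun G hG' => hG G hG'
    _ = ((𝒢 (s / C)).card : ℝ) * (((((s / C : ℕ) : ℝ) ^ c) ^ s / s.factorial) *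
          (((m : ℝ) / B.card) ^ s * (B.card.choose m))) := by rw [sum_const, nsmul_eq_mul]
    _ ≤ (((B.card * S.card * (s / C) * (s / C) + 1 : ℕ) : ℝ) ^ ((S.card + 1) * (s / C))) *
          (((((s / C : ℕ) : ℝ) ^ c) ^ s / s.factorial) *
          (((m : ℝ) / B.card) ^ s * (B.card.choose m))) := by
        apply mul_le_mul_of_nonneg_right _ (by positivity)
        exact_mod_cast h1 (s / C)
    _ = _ := by ring

end Pool.Agent.Q247.RK
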