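import Pool.Agent.Q247.RK.Count

set_option autoImplicit false

/-!
# Sets of differences contained in a random set: the estimate
-/

namespace Pool.Agent.Q247.RK

open Finset

theorem term_le {N m s C s0 : ℕ} {c δ : ℝ} (hc : 1 ≤ c) (hδ : 0 < δ) (hs1 : 1 ≤ s) (hs2 : s ≤ m)
    (hm : m ≤ N) (hmN : (m : ℝ) ^ c ≤ (N : ℝ) ^ (1 - δ)) (hN2 : 2 ≤ N) (hs0 : s0 ≤ N)
    (hNe : Real.exp 1 ≤ (N : ℝ) ^ (δ / 4)) (hC0 : 1 ≤ C) (hC : 20 * ((s0 : ℝ) + 1) ≤ δ * C) :
    ((N * s0 * (s / C) * (s / C) + 1 : ℕ) : ℝ) ^ ((s0 + 1) * (s / C)) *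
        ((((s / C : ℕ) : ℝ) ^ c) ^ s / s.factorial) * ((m : ℝ) / N) ^ s ≤
      (N : ℝ) ^ (-(δ * s / 2)) := by
  obtain ⟨K, hK⟩ : ∃ K, K = s / C := ⟨_, rfl⟩
  rw [← hK]
  have hN0 : (0 : ℝ) < N := by exact_mod_cast (by omega : 0 < N)
  have hN1 : (1 : ℝ) ≤ N := by exact_mod_cast (by omega : 1 ≤ N)
  have hKs : K ≤ s := by rw [hK]; exact Nat.div_le_self _ _
  have hKN : K ≤ N := hKs.trans (hs2.trans hm)
  have hm0 : (0 : ℝ) < m := by exact_mod_cast (by omega : 0 < m)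
  have hsr : (0 : ℝ) < s := by exact_mod_cast hs1
  -- the first factor
  have hT1 : ((N * s0 * K * K + 1 : ℕ) : ℝ) ^ ((s0 + 1) * K) ≤ (N : ℝ) ^ (δ * s / 4) := by
    have h1 : N * s0 * K * K + 1 ≤ N ^ 5 := by
      have h2 : N * s0 * K * K ≤ N * N * N * N := by gcongr
      have h3 : 1 ≤ N * N * N * N := Nat.succ_le_of_lt (by positivity)
      calc N * s0 * K * K + 1 ≤ N * N * N * N + N * N * N * N := Nat.add_le_add h2 h3
        _ = 2 * (N * N * N * N) := by ring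
        _ ≤ N * (N * N * N * N) := Nat.mul_le_mul_right _ hN2
        _ = N ^ 5 := by ring
    have h4 : (((N * s0 * K * K + 1 : ℕ)) : ℝ) ≤ (N : ℝ) ^ 5 := by exact_mod_cast h1
    calc ((N * s0 * K * K + 1 : ℕ) : ℝ) ^ ((s0 + 1) * K)
        ≤ ((N : ℝ) ^ 5) ^ ((s0 + 1) * K) := pow_le_pow_left₀ (by positivity) h4 _
      _ = (N : ℝ) ^ ((5 * ((s0 + 1) * K) : ℕ) : ℝ) := by rw [← pow_mul, Real.rpow_natCast]
      _ ≤ (N : ℝ) ^ (δ * s / 4) := by
          apply Real.rpow_le_rpow_of_exponent_le hN1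
          have h5 : (K : ℝ) * C ≤ s := by
            have : K * C ≤ s := by rw [hK]; exact Nat.div_mul_le_self _ _
            exact_mod_cast this
          have hCr : (0 : ℝ) < C := by exact_mod_cast hC0
          have h6 : 20 * ((s0 : ℝ) + 1) * K ≤ δ * s := by
            calc 20 * ((s0 : ℝ) + 1) * K ≤ δ * C * K :=
                  mul_le_mul_of_nonneg_right hC (by positivity)
              _ = δ * (K * C) := by ring
              _ ≤ δ * s := mul_le_mul_of_nonneg_left h5 hδ.le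
          push_cast
          linarith
  -- the second factor
  have hT2 : (((K : ℕ) : ℝ) ^ c) ^ s / s.factorial ≤ ((m : ℝ) ^ (c - 1) * Real.exp 1) ^ s := by
    have h1 : ((K : ℝ) ^ c) ^ s ≤ ((s : ℝ) ^ c) ^ s :=
      pow_le_pow_left₀ (by positivity)
        (Real.rpow_le_rpow (by positivity) (by exact_mod_cast hKs) (by linarith)) _
    have h2 : (s : ℝ) ^ c = (s : ℝ) ^ (c - 1) * s := by
      rw [Real.rpow_sub_one hsr.ne']
      field_simp
    have h3 := Real.pow_div_factorial_le_exp (s : ℝ) hsr.le s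
    calc ((K : ℝ) ^ c) ^ s / s.factorial ≤ ((s : ℝ) ^ (c - 1) * s) ^ s / s.factorial := by
          apply div_le_div_of_nonneg_right _ (by positivity)
          rw [← h2]
          exact h1
      _ = ((s : ℝ) ^ (c - 1)) ^ s * ((s : ℝ) ^ s / s.factorial) := by rw [mul_pow]; ring
      _ ≤ ((m : ℝ) ^ (c - 1)) ^ s * Real.exp s := by
          apply mul_le_mul _ h3 (by positivity) (by positivity)
          apply pow_le_pow_left₀ (by positivity)
          exact Real.rpow_le_rpow hsr.le (by exact_mod_cast hs2) (by linarith)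
      _ = _ := by
          rw [mul_pow, ← Real.exp_nat_mul, mul_one]
  have hT3 : ((m : ℝ) ^ (c - 1) * Real.exp 1) ^ s * ((m : ℝ) / N) ^ s ≤
      (N : ℝ) ^ (-(3 * δ / 4) * s) := by
    rw [← mul_pow]
    have h1 : (m : ℝ) ^ (c - 1) * Real.exp 1 * ((m : ℝ) / N) = (m : ℝ) ^ c * Real.exp 1 / N := by
      rw [Real.rpow_sub_one hm0.ne']
      field_simp
    have h2 : (m : ℝ) ^ c * Real.exp 1 / N ≤ (N : ℝ) ^ (-(3 * δ / 4)) := by
      rw [div_le_iff₀ hN0]
      calc (m : ℝ) ^ c * Real.exp 1 ≤ (N : ℝ) ^ (1 - δ) * (N : ℝ) ^ (δ / 4) :=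
            mul_le_mul hmN hNe (by positivity) (by positivity)
        _ = (N : ℝ) ^ (-(3 * δ / 4)) * N := by
            rw [← Real.rpow_add hN0]
            nth_rewrite 3 [← Real.rpow_one (N : ℝ)]
            rw [← Real.rpow_add hN0]
            congr 1
            ring
    calc ((m : ℝ) ^ (c - 1) * Real.exp 1 * ((m : ℝ) / N)) ^ s
        ≤ ((N : ℝ) ^ (-(3 * δ / 4))) ^ s := by
          rw [h1]
          exact pow_le_pow_left₀ (by positivity) h2 _
      _ = _ := by rw [← Real.rpow_natCast, ← Real.rpow_mul hN0.le]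
  calc ((N * s0 * K * K + 1 : ℕ) : ℝ) ^ ((s0 + 1) * K) *
        ((((K : ℕ) : ℝ) ^ c) ^ s / s.factorial) * ((m : ℝ) / N) ^ s
      ≤ (N : ℝ) ^ (δ * s / 4) * ((m : ℝ) ^ (c - 1) * Real.exp 1) ^ s * ((m : ℝ) / N) ^ s := by
        gcongr
    _ = (N : ℝ) ^ (δ * s / 4) * (((m : ℝ) ^ (c - 1) * Real.exp 1) ^ s * ((m : ℝ) / N) ^ s) := by
        ring
    _ ≤ (N : ℝ) ^ (δ * s / 4) * (N : ℝ) ^ (-(3 * δ / 4) * s) :=
        mul_le_mul_of_nonneg_left hT3 (by positivity)
    _ = _ := by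
        rw [← Real.rpow_add hN0]
        congr 1
        ring

/-- **Transference.** If the sizes of all sets satisfy `|π_{-1}(A)| ≤ max^c` then, for almost all
subsets `D` with at most `|B|^{(1-δ)/c}` elements of an arbitrary finite set `B`, all sets `A` with
differences in `D` satisfy `|π_{-1}(A)| ≤ C max`. -/
theorem transference {S : Finset ℚ} {c : ℝ} (hc : 1 ≤ c)
    (hKT : ∀ A : Finset (ℤ × ℤ), ((proj (-1) A).card : ℝ) ≤ (big S A : ℝ) ^ c)
    (δ η : ℝ) (hδ : 0 < δ) :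
    ∃ C : ℕ, ∀ (B : Finset ℤ) (m : ℕ), (m : ℝ) ^ c ≤ (B.card : ℝ) ^ (1 - δ) →
      ((Bad S B m C).card : ℝ) ≤ (B.card : ℝ) ^ (-η) * (B.card.choose m) := by
  classical
  obtain ⟨C, hC⟩ := exists_nat_gt (max (max (20 * ((S.card : ℝ) + 1) / δ) (2 * (η + 1) / δ))
    (max (Real.exp (4 / δ)) ((S.card : ℝ) + 2)))
  have hC1 : 20 * ((S.card : ℝ) + 1) / δ < C :=
    lt_of_le_of_lt ((le_max_left _ _).trans (le_max_left _ _)) hC
  have hC2 : 2 * (η + 1) / δ < C :=
    lt_of_le_of_lt ((le_max_right _ _).trans (le_max_left _ _)) hC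
  have hC3 : Real.exp (4 / δ) < C :=
    lt_of_le_of_lt ((le_max_left _ _).trans (le_max_right _ _)) hC
  have hC4 : (S.card : ℝ) + 2 < C :=
    lt_of_le_of_lt ((le_max_right _ _).trans (le_max_right _ _)) hC
  have hC4' : S.card + 2 < C := by exact_mod_cast hC4
  refine ⟨C, fun B m hm => ?_⟩
  obtain ⟨N, hN⟩ : ∃ N, N = B.card := ⟨_, rfl⟩
  rw [← hN] at hm ⊢
  by_cases hmN : m ≤ N
  swap
  · have : Bad S B m C = ∅ := by
      unfold Bad
      rw [powersetCard_eq_empty.2 (by omega), filter_empty]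
    rw [this, card_empty, Nat.cast_zero]
    positivity
  have h1 := bad_le (by linarith : (0 : ℝ) ≤ c) hKT B m C (by omega) (by omega)
  rw [← hN] at h1
  by_cases hNC : N ≤ C
  · rw [Icc_eq_empty (by omega), sum_empty] at h1
    exact h1.trans (by positivity)
  push Not at hNC
  have hN0 : (0 : ℝ) < N := by exact_mod_cast (by omega : 0 < N)
  have hN1 : (1 : ℝ) ≤ N := by exact_mod_cast (by omega : 1 ≤ N)
  have hNe : Real.exp 1 ≤ (N : ℝ) ^ (δ / 4) := by
    have h2 : Real.exp (4 / δ) ≤ N := hC3.le.trans (by exact_mod_cast hNC.le)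
    calc Real.exp 1 = (Real.exp (4 / δ)) ^ (δ / 4) := by
          rw [← Real.exp_mul]
          congr 1
          field_simp
      _ ≤ _ := Real.rpow_le_rpow (by positivity) h2 (by positivity)
  have hCδ : 20 * ((S.card : ℝ) + 1) ≤ δ * C := by
    rw [div_lt_iff₀ hδ] at hC1
    linarith
  have hterm : ∀ s ∈ Icc (C + 1) m,
      ((N * S.card * (s / C) * (s / C) + 1 : ℕ) : ℝ) ^ ((S.card + 1) * (s / C)) *
        ((((s / C : ℕ) : ℝ) ^ c) ^ s / s.factorial) * ((m : ℝ) / N) ^ s * (N.choose m) ≤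
      (N : ℝ) ^ (-(η + 1)) * (N.choose m) := by
    intro s hs
    obtain ⟨hs1, hs2⟩ := mem_Icc.1 hs
    apply mul_le_mul_of_nonneg_right _ (by positivity)
    refine (term_le hc hδ (by omega) hs2 hmN hm (by omega) (by omega) hNe (by omega) hCδ).trans ?_
    apply Real.rpow_le_rpow_of_exponent_le hN1
    have h3 : (C : ℝ) ≤ s := by exact_mod_cast (by omega : C ≤ s)
    rw [div_lt_iff₀ hδ] at hC2
    nlinarith
  refine h1.trans ((sum_le_sum hterm).trans ?_)
  rw [sum_const, nsmul_eq_mul, Nat.card_Icc]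
  have h4 : ((m + 1 - (C + 1) : ℕ) : ℝ) ≤ N := by exact_mod_cast (by omega : m + 1 - (C + 1) ≤ N)
  calc ((m + 1 - (C + 1) : ℕ) : ℝ) * ((N : ℝ) ^ (-(η + 1)) * (N.choose m))
      ≤ N * ((N : ℝ) ^ (-(η + 1)) * (N.choose m)) :=
        mul_le_mul_of_nonneg_right h4 (by positivity)
    _ = (N : ℝ) ^ (-η) * (N.choose m) := by
        rw [← mul_assoc]
        congr 1
        nth_rewrite 1 [← Real.rpow_one (N : ℝ)]
        rw [← Real.rpow_add hN0]
        congr 1
        ring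

end Pool.Agent.Q247.RK
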