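import Mathlib

set_option autoImplicit false

/-!
# Zero patterns of affine linear forms

The number of the sets `{e : L_e(v) = 0}`, `v ∈ ℚ^n`, for affine linear forms `L_e`, `e ∈ E`, is at
most `(|E| + 1)^n`.
-/

namespace Pool.Agent.Q247.RK

open Finset

/-- the functional `w ↦ ∑ w_i v_i + w_none` -/
noncomputable def fnl {ι : Type*} [Fintype ι] (v : ι → ℚ) : (Option ι → ℚ) →ₗ[ℚ] ℚ :=
  ∑ i, v i • LinearMap.proj (some i) + LinearMap.proj none

theorem fnl_apply {ι : Type*} [Fintype ι] (v : ι → ℚ) (w : Option ι → ℚ) :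
    fnl v w = ∑ i, v i * w (some i) + w none := by
  simp [fnl, LinearMap.sum_apply]

/-- the pattern determined by a list of forms -/
noncomputable def clos {ι E : Type*} [Fintype E] (a : E → Option ι → ℚ) {n : ℕ}
    (f : Fin n → Option E) : Finset E := by
  classical
  exact univ.filter fun e => a e ∈ Submodule.span ℚ {w | ∃ i e', f i = some e' ∧ a e' = w}

theorem patterns {ι E : Type*} [Fintype ι] [Fintype E] (a : E → Option ι → ℚ) (v : ι → ℚ) :
    ∃ f : Fin (Fintype.card ι) → Option E, ∀ e, e ∈ clos a f ↔ fnl v (a e) = 0 := by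
  classical
  obtain ⟨b, hb, hspan, hind⟩ := exists_linearIndependent ℚ (a '' {e | fnl v (a e) = 0})
  have hbfin : b.Finite := ((Set.toFinite _).image a).subset hb
  have : Fintype b := hbfin.fintype
  -- the number of elements of `b`
  have hker : Submodule.span ℚ b ≤ LinearMap.ker (fnl v) := by
    rw [Submodule.span_le]
    intro w hw
    obtain ⟨e, he, rfl⟩ := hb hw
    exact he
  have hlt : LinearMap.ker (fnl v) ≠ ⊤ := by
    intro h
    have h1 : (Pi.single none 1 : Option ι → ℚ) ∈ LinearMap.ker (fnl v) := by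
      rw [h]; trivial
    rw [LinearMap.mem_ker, fnl_apply] at h1
    simp at h1
  have hcard : Fintype.card b ≤ Fintype.card ι := by
    have h1 : Fintype.card b = Module.finrank ℚ (Submodule.span ℚ b) := by
      rw [finrank_span_set_eq_card hind, Set.toFinset_card]
    have h2 := Submodule.finrank_mono hker
    have h3 := Submodule.finrank_lt hlt
    rw [Module.finrank_fintype_fun_eq_card, Fintype.card_option] at h3
    omega
  choose rep hrep1 hrep2 using fun w : b => hb w.2
  let eb := Fintype.equivFin b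
  refine ⟨fun i => if h : (i : ℕ) < Fintype.card b then some (rep (eb.symm ⟨i, h⟩)) else none, ?_⟩
  have hset : {w | ∃ i e', (fun i : Fin (Fintype.card ι) =>
      if h : (i : ℕ) < Fintype.card b then some (rep (eb.symm ⟨i, h⟩)) else none) i = some e' ∧
        a e' = w} = b := by
    ext w
    constructor
    · rintro ⟨i, e', h1, rfl⟩
      by_cases h : (i : ℕ) < Fintype.card b
      · simp only [h, dif_pos] at h1
        have h2 := Option.some.inj h1
        rw [← h2, hrep2]
        exact (eb.symm ⟨i, h⟩).2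
      · simp only [h, dif_neg, not_false_eq_true] at h1
        exact absurd h1 (by simp)
    · intro hw
      have hlt' : ((eb ⟨w, hw⟩ : Fin (Fintype.card b)) : ℕ) < Fintype.card b := (eb ⟨w, hw⟩).2
      refine ⟨⟨(eb ⟨w, hw⟩ : ℕ), by omega⟩, rep ⟨w, hw⟩, ?_, hrep2 ⟨w, hw⟩⟩
      simp only [hlt', dif_pos]
      congr 2
      have : (⟨((eb ⟨w, hw⟩ : Fin (Fintype.card b)) : ℕ), hlt'⟩ : Fin (Fintype.card b)) =
          eb ⟨w, hw⟩ := rfl
      rw [this, Equiv.symm_apply_apply]
  intro e
  unfold clos
  rw [hset, mem_filter, hspan]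
  constructor
  · rintro ⟨_, h⟩
    rw [← hspan] at h
    exact hker h
  · intro h
    exact ⟨mem_univ _, Submodule.subset_span ⟨e, h, rfl⟩⟩

end Pool.Agent.Q247.RK
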