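import Pool.Agent.Q247.RK.Uncond

set_option autoImplicit false

/-!
# Sets containing long progressions with differences from a random set of integers
-/

namespace Pool.Agent.Q247.RK

open Finset

/-- `D` is good: every finite set of integers which contains a `k`-term progression for each common
difference in a subset `J` of `D` has at least `|J| / C` elements. -/
def GoodP (k C : ℕ) (D : Finset ℤ) : Prop :=
  ∀ J ⊆ D, ∀ T : Finset ℤ, (∀ d ∈ J, ∃ a : ℤ, ∀ i < k, a + (i : ℤ) * d ∈ T) → J.card ≤ C * T.card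

theorem goodP_of {S : Finset ℚ} {q : ℕ} (hq : 1 ≤ q) {P : ℚ → ℤ}
    (hP : ∀ r ∈ S, (1 + r) * (P r : ℚ) = q) {C : ℕ} (D : Finset ℤ)
    (h : ∀ A : Finset (ℤ × ℤ), (∀ p ∈ A, p.1 - p.2 ∈ D.image fun d => (q : ℤ) * d) →
      (proj (-1) A).card ≤ C * big S A) :
    GoodP (2 * (∑ r ∈ S, (P r).natAbs) + 1) C D := by
  classical
  intro J hJ T hT
  set J0 : ℕ := ∑ r ∈ S, (P r).natAbs with hJ0
  choose! a ha using hT
  set y : ℤ → ℤ := fun d => a d + J0 * d with hy
  set A : Finset (ℤ × ℤ) := J.image fun d => (y d + q * d, y d) with hA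
  have hterm : ∀ (t : ℕ), t ≤ 2 * J0 → (J.image fun d => a d + (t : ℤ) * d).card ≤ T.card := by
    intro t ht
    apply card_le_card
    intro z hz
    obtain ⟨d, hd, rfl⟩ := mem_image.1 hz
    exact ha d hd t (by omega)
  have hbig : big S A ≤ T.card := by
    unfold big
    refine max_le ?_ (Finset.sup_le fun r hr => ?_)
    · have : projInf A = (J.image fun d => a d + ((J0 : ℕ) : ℤ) * d).image
          (fun z : ℤ => (z : ℚ)) := by
        unfold projInf
        rw [hA, image_image, image_image]
        rfl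
      rw [this]
      exact card_image_le.trans (hterm J0 (by omega))
    · have hb : (P r).natAbs ≤ J0 := by
        rw [hJ0]
        exact Finset.single_le_sum (f := fun r => (P r).natAbs) (fun _ _ => Nat.zero_le _) hr
      obtain ⟨t, ht⟩ : ∃ t : ℕ, (t : ℤ) = J0 + P r := ⟨((J0 : ℤ) + P r).toNat, by
        rw [Int.toNat_of_nonneg]; omega⟩
      have ht2 : t ≤ 2 * J0 := by omega
      have : proj r A = (J.image fun d => a d + (t : ℤ) * d).image
          (fun z : ℤ => (1 + r) * (z : ℚ)) := by
        unfold proj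
        rw [hA, image_image, image_image]
        refine image_congr fun d _ => ?_
        simp only [Function.comp, hy]
        have h1 := hP r hr
        have h2 : (t : ℚ) = J0 + P r := by exact_mod_cast ht
        push_cast
        rw [h2, ← h1]
        ring
      rw [this]
      exact card_image_le.trans (hterm t ht2)
  have hproj : (proj (-1) A).card = J.card := by
    have h1 : proj (-1) A = J.image (fun d : ℤ => (q : ℚ) * (d : ℚ)) := by
      unfold proj
      rw [hA, image_image]
      refine image_congr fun v _ => ?_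
      simp only [Function.comp]
      push_cast
      ring
    rw [h1, card_image_of_injective]
    intro v w hvw
    have hq0 : (q : ℚ) ≠ 0 := by
      have : q ≠ 0 := by omega
      exact_mod_cast this
    have h2 := mul_left_cancel₀ hq0 hvw
    exact_mod_cast h2
  have hfin := h A (by
    intro p hp
    obtain ⟨d, hd, rfl⟩ := mem_image.1 hp
    refine mem_image.2 ⟨d, hJ hd, ?_⟩
    simp only
    ring)
  rw [hproj] at hfin
  exact hfin.trans (Nat.mul_le_mul_left _ hbig)

/-- One length `k` for all: all but few `m`-subsets of any set `B` of at least `m ^ (1 / 0.5989)`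
integers are good. -/
theorem progs : ∃ k : ℕ, 1 ≤ k ∧ ∀ η : ℝ, ∃ C : ℕ, 1 ≤ C ∧ ∀ (B : Finset ℤ) (m : ℕ),
    (m : ℝ) ≤ (B.card : ℝ) ^ (0.5989 : ℝ) →
      (Nat.card {D : Finset ℤ // D ⊆ B ∧ D.card = m ∧ ¬ GoodP k C D} : ℝ) ≤
        (B.card : ℝ) ^ (-η) * (B.card.choose m) := by
  classical
  obtain ⟨S, hS, hun⟩ := uncond
  obtain ⟨q, P, hq, hP⟩ := exists_q S hS
  refine ⟨2 * (∑ r ∈ S, (P r).natAbs) + 1, by omega, fun η => ?_⟩
  obtain ⟨C, hC, hb⟩ := hun η
  refine ⟨C, hC, fun B m hm => ?_⟩
  have hginj : Function.Injective fun d : ℤ => (q : ℤ) * d := by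
    intro v w hvw
    have hq0 : (q : ℤ) ≠ 0 := by
      have : q ≠ 0 := by omega
      exact_mod_cast this
    exact mul_left_cancel₀ hq0 hvw
  have hcardB : (B.image fun d : ℤ => (q : ℤ) * d).card = B.card := card_image_of_injective _ hginj
  have h1 := hb (B.image fun d : ℤ => (q : ℤ) * d) m (by rw [hcardB]; exact hm)
  rw [hcardB] at h1
  refine le_trans ?_ h1
  have h2 : Nat.card {D : Finset ℤ // D ⊆ B ∧ D.card = m ∧
      ¬ GoodP (2 * (∑ r ∈ S, (P r).natAbs) + 1) C D} ≤
      Nat.card {D' // D' ∈ Bad S (B.image fun d : ℤ => (q : ℤ) * d) m C} := by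
    have key : ∀ D : Finset ℤ, (D ⊆ B ∧ D.card = m ∧
        ¬ GoodP (2 * (∑ r ∈ S, (P r).natAbs) + 1) C D) →
        (D.image fun d : ℤ => (q : ℤ) * d) ∈ Bad S (B.image fun d : ℤ => (q : ℤ) * d) m C := by
      intro D hD
      rw [mem_Bad]
      refine ⟨⟨image_subset_image hD.1, ?_⟩, fun hcon => hD.2.2 ?_⟩
      · rw [card_image_of_injective _ hginj]
        exact hD.2.1
      · exact goodP_of hq hP D hcon
    refine Nat.card_le_card_of_injective (Subtype.map (fun D => D.image fun d : ℤ => (q : ℤ) * d)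
      key) ?_
    exact Subtype.map_injective _ (Finset.image_injective hginj)
  have h3 : Nat.card {D' // D' ∈ Bad S (B.image fun d : ℤ => (q : ℤ) * d) m C} =
      (Bad S (B.image fun d : ℤ => (q : ℤ) * d) m C).card :=
    Nat.card_eq_card_toFinset _ |>.trans (by simp)
  rw [h3] at h2
  exact_mod_cast h2

end Pool.Agent.Q247.RK
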