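import Pool.Agent.Q247.RK.Main
import Pool.Agent.TH404.AK.Sdc3

set_option autoImplicit false

/-!
# Random sets of differences: the unconditional form
-/

namespace Pool.Agent.Q247.RK

theorem uncond : ∃ S : Finset ℚ, (-1 : ℚ) ∉ S ∧ ∀ η : ℝ, ∃ C : ℕ, 1 ≤ C ∧
    ∀ (B : Finset ℤ) (m : ℕ), (m : ℝ) ≤ (B.card : ℝ) ^ (0.5989 : ℝ) →
      ((Bad S B m C).card : ℝ) ≤ (B.card : ℝ) ^ (-η) * (B.card.choose m) := by
  obtain ⟨S, hS, h⟩ := Pool.Agent.TH404.AK.sdc3
  refine ⟨S, hS, fun η => ?_⟩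
  have hKT : ∀ A : Finset (ℤ × ℤ),
      ((proj (-1) A).card : ℝ) ≤ (big S A : ℝ) ^ (1669587 / 1000000 : ℝ) := by
    intro A
    have h2 := h A
    unfold big
    rw [Nat.cast_max]
    exact h2
  obtain ⟨C, hC⟩ := transference (by norm_num) hKT (1 - 0.5989 * (1669587 / 1000000)) η
    (by norm_num)
  have hmono : ∀ (B : Finset ℤ) (m : ℕ), (Bad S B m (C + 1)).card ≤ (Bad S B m C).card := by
    intro B m
    classical
    apply Finset.card_le_card
    intro D hD
    unfold Bad at hD ⊢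
    rw [Finset.mem_filter] at hD ⊢
    refine ⟨hD.1, fun hcon => hD.2 fun A hA => (hcon A hA).trans ?_⟩
    exact Nat.mul_le_mul_right _ (Nat.le_succ C)
  refine ⟨C + 1, by omega, fun B m hm => ?_⟩
  refine le_trans (by exact_mod_cast hmono B m) (hC B m ?_)
  calc (m : ℝ) ^ (1669587 / 1000000 : ℝ)
      ≤ ((B.card : ℝ) ^ (0.5989 : ℝ)) ^ (1669587 / 1000000 : ℝ) :=
        Real.rpow_le_rpow (by positivity) hm (by norm_num)
    _ = (B.card : ℝ) ^ (1 - (1 - 0.5989 * (1669587 / 1000000)) : ℝ) := by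
        rw [← Real.rpow_mul (by positivity)]
        congr 1
        norm_num

theorem mem_Bad {S : Finset ℚ} {B : Finset ℤ} {m C : ℕ} {D : Finset ℤ} :
    D ∈ Bad S B m C ↔ (D ⊆ B ∧ D.card = m) ∧ ¬ ∀ A : Finset (ℤ × ℤ), (∀ p ∈ A, p.1 - p.2 ∈ D) →
      (proj (-1) A).card ≤ C * big S A := by
  classical
  unfold Bad
  rw [Finset.mem_filter, Finset.mem_powersetCard]

/-- For finitely many slopes `r ≠ -1` there is `q ≥ 1` with `q / (1 + r)` integral for all `r`. -/
theorem exists_q (S : Finset ℚ) (hS : (-1 : ℚ) ∉ S) :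
    ∃ (q : ℕ) (P : ℚ → ℤ), 1 ≤ q ∧ ∀ r ∈ S, (1 + r) * (P r : ℚ) = q := by
  classical
  induction S using Finset.induction_on with
  | empty => exact ⟨1, fun _ => 0, le_rfl, by simp⟩
  | insert r S hr ih =>
    obtain ⟨q, P, hq, hP⟩ := ih fun h => hS (Finset.mem_insert_of_mem h)
    have hr1 : (1 + r : ℚ) ≠ 0 := by
      intro h
      apply hS
      have : r = -1 := by linarith
      rw [this]
      exact Finset.mem_insert_self _ _
    have hn : ((1 + r : ℚ)).num ≠ 0 := Rat.num_ne_zero.2 hr1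
    set a : ℤ := (1 + r : ℚ).num with ha
    set b : ℕ := (1 + r : ℚ).den with hb
    have hab : (1 + r : ℚ) * b = a := by
      rw [ha, hb]
      exact Rat.mul_den_eq_num (1 + r)
    obtain ⟨t, ht, ht0⟩ : ∃ t : ℕ, (t : ℚ) = (a : ℚ) * (a.sign : ℤ) ∧ 1 ≤ t := by
      refine ⟨a.natAbs, ?_, Int.natAbs_pos.2 hn⟩
      have h1 : (a : ℤ) * a.sign = (a.natAbs : ℤ) := Int.mul_sign_self a
      have h3 : (((a.natAbs : ℕ) : ℤ) : ℚ) = ((a * a.sign : ℤ) : ℚ) := by rw [h1]
      rw [Int.cast_natCast, Int.cast_mul] at h3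
      exact h3
    refine ⟨q * t, fun s => if s = r then q * b * a.sign else P s * t, ?_, ?_⟩
    · exact Nat.mul_pos hq ht0
    · intro s hs
      by_cases hsr : s = r
      · subst hsr
        simp only [if_true]
        push_cast
        rw [ht, ← hab]
        ring
      · simp only [hsr, if_false]
        have h2 := hP s ((Finset.mem_insert.1 hs).resolve_left hsr)
        push_cast
        rw [← h2]
        ring

end Pool.Agent.Q247.RK
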